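import Mathlib
import Pool.Agent.R689.CondFlat
import Pool.Agent.Run7.h958.CondFlat

/-!
# A conditionally flat localization functor of groups that is not an epireflection

The reflection `G ↦ ℚ ⊗ G_ab` of the category of groups onto the uniquely divisible abelian groups
is a localization functor. It is right exact: an extension `N → E → G` gives an exact sequence
`ℚ ⊗ N_ab → ℚ ⊗ E_ab → ℚ ⊗ G_ab → 0`. If the first map of this sequence is injective for an
extension, then it is injective for all its pullbacks, because `N → E` factors through them. So this
functor is conditionally flat, but the map `ℤ → ℚ` is not surjective.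
-/

set_option autoImplicit false

universe u

namespace Pool.Agent.Results.MP_52d248_al.NotEpireflection

open CategoryTheory Pool.Agent.R689.CF

/-- There is a localization functor of the category of groups (in every universe) which is
conditionally flat and not an epireflection. -/
theorem result : ∃ (L : GrpCat.{u} ⥤ GrpCat.{u}) (η : 𝟭 GrpCat.{u} ⟶ L),
    IsLocalizationFunctor L η ∧ ConditionallyFlat L ∧ ¬ IsEpireflection L η :=
  ⟨Run7.h958.CondFlat.L, Run7.h958.CondFlat.eta, Run7.h958.CondFlat.isLoc,
    Run7.h958.CondFlat.condFlat, Run7.h958.CondFlat.not_epi⟩

end Pool.Agent.Results.MP_52d248_al.NotEpireflection
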